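import Pool.Agent.Helper50.AY.St

/-!
# Project AY, module SPG: the splitting of a system over a ring which is not a field
-/

set_option autoImplicit false

namespace Pool.Agent.Helper97.AY

open Pool.Agent.Helper50.AY Pool.Agent.Helper43.GD Polynomial

/-- values of polynomials lie in additive subgroups -/
theorem ev_mem {L : Type} [CommRing L] {p : ℕ} [Fact p.Prime] (x : L) (ev : (ZMod p)[X] →+* L)
    (hev : ev X = x) (c : L) (N : AddSubgroup L) (n : ℕ) (h : ∀ i < n, c * x ^ i ∈ N)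
    (r : (ZMod p)[X]) (hr : r.natDegree < n) : c * ev r ∈ N := by
  rw [r.as_sum_range' n hr, map_sum, Finset.mul_sum]
  refine N.sum_mem fun i hi => ?_
  rw [Finset.mem_range] at hi
  have h1 : ev (monomial i (r.coeff i)) = ((r.coeff i).val : L) * x ^ i := by
    rw [← C_mul_X_pow_eq_monomial, map_mul, map_pow, hev]
    congr 1
    conv_lhs => rw [← ZMod.natCast_zmod_val (r.coeff i)]
    rw [map_natCast, map_natCast]
  rw [h1]
  have h2 : c * (((r.coeff i).val : L) * x ^ i) = (r.coeff i).val • (c * x ^ i) := by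
    rw [nsmul_eq_mul]
    ring
  rw [h2]
  exact N.nsmul_mem (h i hi) _

/-- the elements whose `E` commutes with a given element -/
def comE {L A : Type} [CommRing L] [Group A] (s : Sys L A) (f : A) : AddSubgroup L where
  carrier := {a | Commute (s.E a) f}
  add_mem' := by
    intro a b ha hb
    change Commute (s.E (a + b)) f
    rw [s.Eadd]
    exact Commute.mul_left ha hb
  zero_mem' := by
    change Commute (s.E 0) f
    rw [s.E_zero]
    exact Commute.one_left _
  neg_mem' := by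
    intro a ha
    change Commute (s.E (-a)) f
    rw [s.E_neg]
    exact Commute.inv_left ha

/-- the elements `b` such that `F (c b)` commutes with a given element -/
def comF {L A : Type} [CommRing L] [Group A] (s : Sys L A) (c : L) (f : A) : AddSubgroup L where
  carrier := {b | Commute f (s.F (c * b))}
  add_mem' := by
    intro a b ha hb
    change Commute f (s.F (c * (a + b)))
    rw [mul_add, s.Fadd]
    exact Commute.mul_right ha hb
  zero_mem' := by
    change Commute f (s.F (c * 0))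
    rw [mul_zero, s.F_zero]
    exact Commute.one_right _
  neg_mem' := by
    intro a ha
    change Commute f (s.F (c * -a))
    rw [mul_neg, s.F_neg]
    exact Commute.inv_right ha

/-- the basic commutation relation -/
theorem star (hSPL : StSPL) {L A : Type} [CommRing L] [Group A] (Q : Fr L A) (t : ℕ)
    (hq : ∀ y : L, y ^ (t + 2) = y) (hq0 : (t : L) + 2 = 0) (π : L) (G g a : Lˣ) (hG : G ∈ Q.U)
    (hg : g ∈ Q.U) (ha : a ∈ Q.U) (hGg : (g : L) = G - π) (ε : L) (hε : ε = 1 - π ^ (t + 1)) :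
    Commute (Q.E (ε * ((a : L) * ((G⁻¹ : Lˣ) : L)))) (Q.F (π * ((a⁻¹ : Lˣ) : L))) := by
  have hg1 : (g : L) * ((g⁻¹ : Lˣ) : L) = 1 := g.mul_inv
  have hG1 : (G : L) * ((G⁻¹ : Lˣ) : L) = 1 := G.mul_inv
  have hz : G * g⁻¹ ∈ Q.U := Q.U.mul_mem hG (Q.U.inv_mem hg)
  have hα : a * g⁻¹ ∈ Q.U := Q.U.mul_mem ha (Q.U.inv_mem hg)
  have hz1 : (G * g⁻¹) ^ (t + 1) = 1 := by
    have h1 : (G * g⁻¹) ^ (t + 2) = G * g⁻¹ := by
      apply Units.ext
      rw [Units.val_pow_eq_pow_val]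
      exact hq _
    rw [pow_succ] at h1
    exact mul_eq_right.1 h1
  have key := hSPL L A Q (G * g⁻¹) (a * g⁻¹) (t + 1) hz hα hz1
  have hεπ : ε * π = 0 := by
    rw [hε, sub_mul, one_mul, ← pow_succ, hq, sub_self]
  have hz2 : ((G * g⁻¹ : Lˣ) : L) - 1 = π * ((g⁻¹ : Lˣ) : L) := by
    rw [Units.val_mul]
    linear_combination hg1 - ((g⁻¹ : Lˣ) : L) * hGg
  have e1 : (((G * g⁻¹ : Lˣ) : L) - 1) * (((a * g⁻¹)⁻¹ : Lˣ) : L) = π * ((a⁻¹ : Lˣ) : L) := by
    rw [hz2, mul_inv, inv_inv, Units.val_mul]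
    linear_combination π * ((a⁻¹ : Lˣ) : L) * hg1
  set s : L := ∑ i ∈ Finset.range (t + 1), ((G * g⁻¹ : Lˣ) : L) ^ i with hs
  have hs1 : s * (((G * g⁻¹ : Lˣ) : L) - 1) = 0 := by
    rw [hs, geom_sum_mul, ← Units.val_pow_eq_pow_val, hz1, Units.val_one, sub_self]
  have hs2 : s * π = 0 := by
    rw [hz2] at hs1
    linear_combination (g : L) * hs1 - s * π * hg1
  have hεz : ∀ i : ℕ, ε * ((G * g⁻¹ : Lˣ) : L) ^ i = ε := by
    intro i
    induction i with
    | zero => rw [pow_zero, mul_one]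
    | succ i ih =>
      have h1 : ε * ((G * g⁻¹ : Lˣ) : L) = ε := by
        have : ε * (((G * g⁻¹ : Lˣ) : L) - 1) = 0 := by
          rw [hz2, ← mul_assoc, hεπ, zero_mul]
        linear_combination this
      rw [pow_succ, ← mul_assoc, ih, h1]
  have hs3 : ε * s = -ε := by
    rw [hs, Finset.mul_sum, Finset.sum_congr rfl (fun i _ => hεz i), Finset.sum_const,
      Finset.card_range, nsmul_eq_mul]
    push_cast
    linear_combination ε * hq0
  have hs4 : s = -ε := by
    have h1 : s = ε * s + (1 - ε) * s := by ring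
    have h2 : (1 - ε) * s = 0 := by
      have : (1 : L) - ε = π ^ t * π := by
        rw [hε, ← pow_succ]
        ring
      rw [this]
      linear_combination π ^ t * hs2
    rw [h1, h2, hs3, add_zero]
  have hεg : ε * ((g⁻¹ : Lˣ) : L) = ε * ((G⁻¹ : Lˣ) : L) := by
    have h1 : ε * (g : L) = ε * (G : L) := by
      rw [hGg]
      linear_combination -hεπ
    linear_combination ε * ((G⁻¹ : Lˣ) : L) * hg1 - ε * ((g⁻¹ : Lˣ) : L) * hG1 -
      ((g⁻¹ : Lˣ) : L) * ((G⁻¹ : Lˣ) : L) * h1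
  have e2 : ((a * g⁻¹ : Lˣ) : L) * s = -(ε * ((a : L) * ((G⁻¹ : Lˣ) : L))) := by
    rw [hs4, Units.val_mul]
    linear_combination -(a : L) * hεg
  rw [e1, e2] at key
  have h3 : Commute (Q.E (-(ε * ((a : L) * ((G⁻¹ : Lˣ) : L))))) (Q.F (π * ((a⁻¹ : Lˣ) : L))) := key
  rw [Q.E_neg] at h3
  exact Commute.inv_left_iff.1 h3

/-- SPG -/
theorem hSPG (hSPL : StSPL) (hPOL : StPOL) (hMXI : StMXI) (hUT : StUT) (hRA : StRA)
    (hEV : StEV) : StSPG := by
  intro L A _ _ Q p _ k x hR hx hnt hnf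
  obtain ⟨ev, hev, hsur⟩ := hEV L p k x hR
  obtain ⟨P₁, hmon, hirr, hdeg, hnu, hfield⟩ := hMXI L p k x hR hnt ev hev hsur
  obtain ⟨-, hfr, -, -, -⟩ := hRA L p k x hR
  have hp5 := hR.five
  have hm : 2 ≤ p ^ (k + 1) := by
    calc 2 ≤ p := by omega
      _ = p ^ 1 := (pow_one p).symm
      _ ≤ p ^ (k + 1) := Nat.pow_le_pow_right (by omega) (by omega)
  have hq2 : 2 ≤ p ^ (p ^ (k + 1)) := by
    calc 2 ≤ p := by omega
      _ = p ^ 1 := (pow_one p).symm
      _ ≤ p ^ (p ^ (k + 1)) := Nat.pow_le_pow_right (by omega) (by omega)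
  obtain ⟨t, ht⟩ : ∃ t, p ^ (p ^ (k + 1)) = t + 2 := ⟨p ^ (p ^ (k + 1)) - 2, by omega⟩
  have hq : ∀ y : L, y ^ (t + 2) = y := fun y => by rw [← ht]; exact hfr y
  have hq0 : (t : L) + 2 = 0 := by
    have h1 : ((t + 2 : ℕ) : L) = 0 := by
      rw [← ht, Nat.cast_pow, hR.char, zero_pow (by omega)]
    push_cast at h1
    exact h1
  set m := p ^ (k + 1) with hmdef
  have hπ0 : ev P₁ ≠ 0 := fun h => hnf (hfield h)
  set π : L := ev P₁ with hπ
  have hee : π ^ (t + 1) * π ^ (t + 1) = π ^ (t + 1) := by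
    have h1 : π ^ (t + 1) * π ^ (t + 1) = π ^ t * π ^ (t + 2) := by ring
    rw [h1, hq, ← pow_succ]
  have hπe : π * π ^ (t + 1) = π := by
    rw [← pow_succ']
    exact hq π
  -- units
  have hX1 : Q.In (ev (X + 1)) := by
    apply hUT L A Q p k x hR hx ev hev
    · exact (monic_X_add_C (1 : ZMod p)).ne_zero
    · have : (X + 1 : (ZMod p)[X]).natDegree = 1 := natDegree_X_add_C (1 : ZMod p)
      rw [this]
      omega
  obtain ⟨x1, hx1, hx1e⟩ := hX1
  rw [map_add, hev, map_one] at hx1e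
  -- the relation for all `a` and `j`
  have hrel : ∀ (a : Lˣ), a ∈ Q.U → ∀ j < m,
      Commute (Q.E ((1 - π ^ (t + 1)) * ((a : L) * (((x ^ (m - j) * x1 ^ j)⁻¹ : Lˣ) : L))))
        (Q.F (π * ((a⁻¹ : Lˣ) : L))) := by
    intro a ha j hj
    have hG : x ^ (m - j) * x1 ^ j ∈ Q.U := Q.U.mul_mem (Q.U.pow_mem hx _) (Q.U.pow_mem hx1 _)
    have hX1m : (X + 1 : (ZMod p)[X]).Monic := monic_X_add_C (1 : ZMod p)
    have hGm : (X ^ (m - j) * (X + 1) ^ j : (ZMod p)[X]).Monic :=
      (monic_X_pow _).mul (hX1m.pow _)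
    have hGd : (X ^ (m - j) * (X + 1) ^ j : (ZMod p)[X]).natDegree = m := by
      rw [(monic_X_pow _).natDegree_mul (hX1m.pow _), natDegree_X_pow, hX1m.natDegree_pow]
      have : (X + 1 : (ZMod p)[X]).natDegree = 1 := natDegree_X_add_C (1 : ZMod p)
      rw [this]
      omega
    have hne : (X ^ (m - j) * (X + 1) ^ j : (ZMod p)[X]) - P₁ ≠ 0 := by
      intro h0
      have h1 : P₁ = X * (X ^ (m - j - 1) * (X + 1) ^ j) := by
        rw [← sub_eq_zero.1 h0, ← mul_assoc, ← pow_succ']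
        congr 2
        omega
      rcases hirr.isUnit_or_isUnit h1 with h | h
      · exact not_isUnit_X h
      · have h2 := natDegree_eq_zero_of_isUnit h
        have h3 : P₁.natDegree ≤ 1 := by
          rw [h1]
          refine natDegree_mul_le.trans ?_
          rw [h2, natDegree_X]
        omega
    have hlt : ((X ^ (m - j) * (X + 1) ^ j : (ZMod p)[X]) - P₁).natDegree < m := by
      have h1 : ((X ^ (m - j) * (X + 1) ^ j : (ZMod p)[X]) - P₁).degree <
          (X ^ (m - j) * (X + 1) ^ j : (ZMod p)[X]).degree := by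
        apply degree_sub_lt
        · rw [degree_eq_natDegree hGm.ne_zero, degree_eq_natDegree hmon.ne_zero, hGd, hdeg]
        · exact hGm.ne_zero
        · rw [hGm.leadingCoeff, hmon.leadingCoeff]
      exact lt_of_lt_of_eq (natDegree_lt_natDegree hne h1) hGd
    obtain ⟨g, hg, hge⟩ := hUT L A Q p k x hR hx ev hev _ hne hlt
    refine star hSPL Q t hq hq0 π (x ^ (m - j) * x1 ^ j) g a hG hg ha ?_ _ rfl
    rw [hge, map_sub, map_mul, map_pow, map_pow, map_add, hev, map_one, Units.val_mul,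
      Units.val_pow_eq_pow_val, Units.val_pow_eq_pow_val, hx1e]
  -- all `ε y` commute with `F (π x ^ i)`
  have hB : ∀ (i : ℕ) (y : L), Commute (Q.E ((1 - π ^ (t + 1)) * y)) (Q.F (π * (x : L) ^ i)) := by
    intro i
    set υ : Lˣ := x ^ (i + m) * x1 ^ (m - 1) with hυ
    set N : AddSubgroup L := (comE Q.toSys (Q.F (π * (x : L) ^ i))).comap
      (AddMonoidHom.mulLeft ((υ⁻¹ : Lˣ) : L)) with hN
    have memN : ∀ y : L, y ∈ N ↔ Commute (Q.E (((υ⁻¹ : Lˣ) : L) * y)) (Q.F (π * (x : L) ^ i)) :=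
      fun y => Iff.rfl
    have hgen : ∀ j ≤ m - 1, (1 - π ^ (t + 1)) * ((x : L) ^ j * ((x : L) + 1) ^ (m - 1 - j)) ∈ N := by
      intro j hj
      rw [memN]
      have h1 := hrel ((x ^ i)⁻¹) (Q.U.inv_mem (Q.U.pow_mem hx i)) j (by omega)
      rw [inv_inv, Units.val_pow_eq_pow_val] at h1
      have h2 : ((υ⁻¹ : Lˣ) : L) * ((1 - π ^ (t + 1)) * ((x : L) ^ j * ((x : L) + 1) ^ (m - 1 - j))) =
          (1 - π ^ (t + 1)) * ((((x ^ i)⁻¹ : Lˣ) : L) * (((x ^ (m - j) * x1 ^ j)⁻¹ : Lˣ) : L)) := by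
        have h3 : υ⁻¹ * (x ^ j * x1 ^ (m - 1 - j)) = (x ^ i)⁻¹ * (x ^ (m - j) * x1 ^ j)⁻¹ := by
          rw [inv_mul_eq_iff_eq_mul, hυ]
          have e1 : x ^ (i + m) = x ^ i * x ^ (m - j) * x ^ j := by
            rw [mul_assoc, ← pow_add, ← pow_add]
            congr 1
            omega
          have e2 : x1 ^ (m - 1) = x1 ^ j * x1 ^ (m - 1 - j) := by
            rw [← pow_add]
            congr 1
            omega
          rw [e1, e2]
          have : x ^ i * x ^ (m - j) * x ^ j * (x1 ^ j * x1 ^ (m - 1 - j)) *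
              ((x ^ i)⁻¹ * (x ^ (m - j) * x1 ^ j)⁻¹) =
              (x ^ j * x1 ^ (m - 1 - j)) * (x ^ i * (x ^ i)⁻¹) *
                ((x ^ (m - j) * x1 ^ j) * (x ^ (m - j) * x1 ^ j)⁻¹) := by
            ac_rfl
          rw [this, mul_inv_cancel, mul_inv_cancel, mul_one, mul_one]
        have h4 := congrArg (fun u : Lˣ => (u : L)) h3
        simp only [Units.val_mul, Units.val_pow_eq_pow_val, hx1e] at h4
        linear_combination (1 - π ^ (t + 1)) * h4
      rw [h2]
      exact h1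
    have hpow := hPOL L (x : L) (1 - π ^ (t + 1)) N (m - 1) hgen
    have hall : ∀ y : L, (1 - π ^ (t + 1)) * y ∈ N := by
      intro y
      obtain ⟨g, rfl⟩ := hsur y
      have h1 : (1 - π ^ (t + 1)) * ev g = (1 - π ^ (t + 1)) * ev (g %ₘ P₁) := by
        conv_lhs => rw [← modByMonic_add_div g P₁]
        rw [map_add, map_mul, ← hπ]
        linear_combination -(ev (g /ₘ P₁)) * hπe
      rw [h1]
      apply ev_mem (x : L) ev hev _ N m (fun j hj => hpow j (by omega))
      rw [← hdeg]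
      exact natDegree_modByMonic_lt g hmon (fun h => by
        rw [h, natDegree_one] at hdeg
        omega)
    intro y
    have h1 := (memN _).1 (hall ((υ : L) * y))
    have h2 : ((υ⁻¹ : Lˣ) : L) * ((1 - π ^ (t + 1)) * ((υ : L) * y)) = (1 - π ^ (t + 1)) * y := by
      linear_combination (1 - π ^ (t + 1)) * y * υ.inv_mul
    rwa [h2] at h1
  have hC : ∀ a b : L, Commute (Q.E ((1 - π ^ (t + 1)) * a)) (Q.F (π * b)) := by
    intro a b
    obtain ⟨g, rfl⟩ := hsur b
    have h1 := ev_mem (x : L) ev hev 1 (comF Q.toSys π (Q.E ((1 - π ^ (t + 1)) * a)))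
      (g.natDegree + 1) (fun i _ => by
        rw [one_mul]
        exact hB i a) g (Nat.lt_succ_self _)
    rw [one_mul] at h1
    exact h1
  have hD : ∀ a b : L, Commute (Q.E ((1 - π ^ (t + 1)) * a)) (Q.F ((1 - (1 - π ^ (t + 1))) * b)) := by
    intro a b
    have h1 : (1 - (1 - π ^ (t + 1))) * b = π * (π ^ t * b) := by ring
    rw [h1]
    exact hC a _
  refine ⟨1 - π ^ (t + 1), ?_, ?_, ?_, fun a b => hD a b, fun a b => ?_⟩
  · linear_combination hee
  · intro h
    apply hnu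
    have h1 : π * π ^ t = 1 := by
      rw [← pow_succ']
      exact (sub_eq_zero.1 h).symm
    exact IsUnit.of_mul_eq_one _ h1
  · intro h
    have h1 : π ^ (t + 1) = 0 := by linear_combination -h
    rw [h1, mul_zero] at hπe
    exact hπ0 hπe.symm
  · have h1 := hD (-b) (-a)
    have h2 : Q.w * (Q.E ((1 - π ^ (t + 1)) * -b) * Q.F ((1 - (1 - π ^ (t + 1))) * -a)) * Q.w⁻¹ =
        Q.w * (Q.F ((1 - (1 - π ^ (t + 1))) * -a) * Q.E ((1 - π ^ (t + 1)) * -b)) * Q.w⁻¹ := by
      rw [h1.eq]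
    have h3 : Q.w * (Q.E ((1 - π ^ (t + 1)) * -b) * Q.F ((1 - (1 - π ^ (t + 1))) * -a)) * Q.w⁻¹ =
        Q.F ((1 - π ^ (t + 1)) * b) * Q.E ((1 - (1 - π ^ (t + 1))) * a) := by
      calc _ = (Q.w * Q.E ((1 - π ^ (t + 1)) * -b) * Q.w⁻¹) *
            (Q.w * Q.F ((1 - (1 - π ^ (t + 1))) * -a) * Q.w⁻¹) := by group
        _ = _ := by
          rw [Q.w_E, Q.w_F]
          congr 2 <;> ring
    have h4 : Q.w * (Q.F ((1 - (1 - π ^ (t + 1))) * -a) * Q.E ((1 - π ^ (t + 1)) * -b)) * Q.w⁻¹ =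
        Q.E ((1 - (1 - π ^ (t + 1))) * a) * Q.F ((1 - π ^ (t + 1)) * b) := by
      calc _ = (Q.w * Q.F ((1 - (1 - π ^ (t + 1))) * -a) * Q.w⁻¹) *
            (Q.w * Q.E ((1 - π ^ (t + 1)) * -b) * Q.w⁻¹) := by group
        _ = _ := by
          rw [Q.w_E, Q.w_F]
          congr 2 <;> ring
    rw [h3, h4] at h2
    exact h2.symm

end Pool.Agent.Helper97.AY
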